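import Mathlib

/-!
# BR, block GOOD: idempotents lift over a complete local ring (GD)
-/

set_option autoImplicit false

namespace Pool.Agent.Helper12.BR

open TensorProduct IsLocalRing

section Coord

variable {O L : Type} [CommRing O] [Ring L] [Algebra O L] {n : ℕ}

theorem coord_mem (b : Module.Basis (Fin n) O L) (I : Ideal O) {y : L}
    (hy : y ∈ I • (⊤ : Submodule O L)) (i : Fin n) : b.repr y i ∈ I := by
  refine Submodule.smul_induction_on hy (fun r hr z _ => ?_) (fun x z hx hz => ?_)
  · rw [map_smul, Finsupp.smul_apply, smul_eq_mul]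
    exact I.mul_mem_right _ hr
  · rw [map_add, Finsupp.add_apply]
    exact I.add_mem hx hz

theorem mem_of_coord (b : Module.Basis (Fin n) O L) (I : Ideal O) {y : L}
    (hy : ∀ i, b.repr y i ∈ I) : y ∈ I • (⊤ : Submodule O L) := by
  rw [← b.sum_repr y]
  exact Submodule.sum_mem _ fun i _ => Submodule.smul_mem_smul (hy i) trivial

theorem mul_mem_smul_top (I J : Ideal O) {x y : L} (hx : x ∈ I • (⊤ : Submodule O L))
    (hy : y ∈ J • (⊤ : Submodule O L)) : x * y ∈ (I * J) • (⊤ : Submodule O L) := by
  refine Submodule.smul_induction_on hx (fun r hr z _ => ?_) (fun x z hx hz => ?_)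
  · refine Submodule.smul_induction_on hy (fun s hs w _ => ?_) (fun x w hx hw => ?_)
    · rw [smul_mul_smul_comm]
      exact Submodule.smul_mem_smul (Ideal.mul_mem_mul hr hs) trivial
    · rw [mul_add]
      exact Submodule.add_mem _ hx hw
  · rw [add_mul]
    exact Submodule.add_mem _ hx hz

theorem mul_right_mem_smul_top (I : Ideal O) {x : L} (hx : x ∈ I • (⊤ : Submodule O L))
    (y : L) : x * y ∈ I • (⊤ : Submodule O L) := by
  have h := mul_mem_smul_top I ⊤ hx (y := y) (by rw [Submodule.top_smul]; trivial)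
  rwa [Ideal.mul_top] at h

theorem mul_left_mem_smul_top (I : Ideal O) {x : L} (hx : x ∈ I • (⊤ : Submodule O L))
    (y : L) : y * x ∈ I • (⊤ : Submodule O L) := by
  have h := mul_mem_smul_top ⊤ I (x := y) (by rw [Submodule.top_smul]; trivial) hx
  rwa [Ideal.top_mul] at h

/-- one step of the iteration -/
def stp (x : L) : L := 3 * x * x - 2 * x * x * x

theorem stp_sub (x : L) : stp x - x = (x * x - x) * (1 - 2 * x) := by
  have h2 : (2 : L) = 1 + 1 := by norm_num
  have h3 : (3 : L) = 1 + 1 + 1 := by norm_num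
  rw [stp, h2, h3]
  noncomm_ring

theorem stp_idem (x : L) : stp x * stp x - stp x =
    (x * x - x) * (x * x - x) * (4 * x * x - 4 * x - 3) := by
  have h2 : (2 : L) = 1 + 1 := by norm_num
  have h3 : (3 : L) = 1 + 1 + 1 := by norm_num
  have h4 : (4 : L) = 1 + 1 + 1 + 1 := by norm_num
  rw [stp, h2, h3, h4]
  noncomm_ring

/-- the iterates -/
def seqq (x : L) : ℕ → L
  | 0 => x
  | n + 1 => stp (seqq x n)

theorem seqq_idem (I : Ideal O) {x : L} (hx : x * x - x ∈ I • (⊤ : Submodule O L)) (k : ℕ) :
    seqq x k * seqq x k - seqq x k ∈ (I ^ (k + 1)) • (⊤ : Submodule O L) := by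
  induction k with
  | zero => simpa [seqq] using hx
  | succ k ih =>
    rw [seqq, stp_idem]
    have h1 := mul_right_mem_smul_top _ (mul_mem_smul_top _ _ ih ih)
      (4 * seqq x k * seqq x k - 4 * seqq x k - 3)
    refine Submodule.smul_mono_left ?_ h1
    rw [← pow_add]
    exact Ideal.pow_le_pow_right (by omega)

theorem seqq_sub (I : Ideal O) {x : L} (hx : x * x - x ∈ I • (⊤ : Submodule O L)) (k : ℕ) :
    seqq x (k + 1) - seqq x k ∈ (I ^ (k + 1)) • (⊤ : Submodule O L) := by
  rw [seqq, stp_sub]
  exact mul_right_mem_smul_top _ (seqq_idem I hx k) _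

theorem seqq_sub_le (I : Ideal O) {x : L} (hx : x * x - x ∈ I • (⊤ : Submodule O L)) {k l : ℕ}
    (hkl : k ≤ l) : seqq x l - seqq x k ∈ (I ^ (k + 1)) • (⊤ : Submodule O L) := by
  induction l, hkl using Nat.le_induction with
  | base => rw [sub_self]; exact Submodule.zero_mem _
  | succ l hl ih =>
    have h1 := seqq_sub I hx l
    have h2 := Submodule.add_mem _ (Submodule.smul_mono_left
      (Ideal.pow_le_pow_right (show k + 1 ≤ l + 1 by omega)) h1) ih
    rwa [sub_add_sub_cancel] at h2

/-- idempotents modulo `I` lift -/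
theorem exists_lift (b : Module.Basis (Fin n) O L) (I : Ideal O) [IsAdicComplete I O] {x : L}
    (hx : x * x - x ∈ I • (⊤ : Submodule O L)) :
    ∃ e : L, e * e = e ∧ e - x ∈ I • (⊤ : Submodule O L) := by
  have hc : ∀ i, ∃ c : O, ∀ k, b.repr (seqq x k) i ≡ c [SMOD (I ^ k • ⊤ : Submodule O O)] := by
    intro i
    refine IsPrecomplete.prec (I := I) (M := O) inferInstance ?_
    intro k l hkl
    rw [SModEq.sub_mem, smul_eq_mul, Ideal.mul_top]
    have h1 := coord_mem b _ (seqq_sub_le I hx hkl) i
    have h2 := Ideal.pow_le_pow_right (show k ≤ k + 1 by omega) h1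
    rw [map_sub, Finsupp.sub_apply] at h2
    rw [← neg_sub]
    exact Submodule.neg_mem _ h2
  choose c hc using hc
  set e : L := ∑ i, c i • b i with he
  have hrep : ∀ i, b.repr e i = c i := fun i => by rw [he, b.repr_sum_self]
  have hek : ∀ k, e - seqq x k ∈ (I ^ k) • (⊤ : Submodule O L) := by
    intro k
    refine mem_of_coord b _ fun i => ?_
    have h1 := hc i k
    rw [SModEq.sub_mem, smul_eq_mul, Ideal.mul_top] at h1
    rw [map_sub, Finsupp.sub_apply, hrep, ← neg_sub]
    exact Submodule.neg_mem _ h1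
  have hidem : ∀ k, e * e - e ∈ (I ^ k) • (⊤ : Submodule O L) := by
    intro k
    have h1 := seqq_idem I hx k
    have h1' := Submodule.smul_mono_left (Ideal.pow_le_pow_right (show k ≤ k + 1 by omega)) h1
    have h2 := mul_right_mem_smul_top _ (hek k) e
    have h3 := mul_left_mem_smul_top _ (hek k) (seqq x k)
    have h4 : e * e - e = (e - seqq x k) * e + seqq x k * (e - seqq x k) - (e - seqq x k) +
        (seqq x k * seqq x k - seqq x k) := by noncomm_ring
    rw [h4]
    exact Submodule.add_mem _ (Submodule.sub_mem _ (Submodule.add_mem _ h2 h3) (hek k)) h1'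
  refine ⟨e, ?_, ?_⟩
  · rw [← sub_eq_zero]
    refine b.ext_elem fun i => ?_
    rw [map_zero, Finsupp.zero_apply]
    refine IsHausdorff.haus (I := I) (M := O) inferInstance _ fun k => ?_
    rw [SModEq.zero, smul_eq_mul, Ideal.mul_top]
    exact coord_mem b _ (hidem k) i
  · have h1 := hek 1
    have h2 := seqq_sub I hx 0
    have h3 := Submodule.add_mem _ h1 (by simpa using h2)
    rw [sub_add_sub_cancel, pow_one] at h3
    exact h3

end Coord

/-- **GD.** idempotents lift -/
theorem exists_idem_lift {O L : Type} [CommRing O] [IsLocalRing O]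
    [IsAdicComplete (maximalIdeal O) O] [Ring L] [Algebra O L] [Module.Finite O L]
    [Module.Free O L] (e : ResidueField O ⊗[O] L) (he : e * e = e) :
    ∃ e' : L, e' * e' = e' ∧ (1 : ResidueField O) ⊗ₜ[O] e' = e := by
  have b : Module.Basis (Fin (Module.finrank O L)) O L := Module.finBasis O L
  have hker : ∀ y : L, (1 : ResidueField O) ⊗ₜ[O] y = 0 ↔
      y ∈ maximalIdeal O • (⊤ : Submodule O L) := by
    intro y
    have hco : ∀ i, (Algebra.TensorProduct.basis (ResidueField O) b).repr
        ((1 : ResidueField O) ⊗ₜ[O] y) i = residue O (b.repr y i) := fun i => by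
      rw [Algebra.TensorProduct.basis_repr_tmul]
      simp
    constructor
    · intro h
      refine mem_of_coord b _ fun i => ?_
      have h1 := hco i
      rw [h, map_zero, Finsupp.zero_apply] at h1
      exact (residue_eq_zero_iff _).1 h1.symm
    · intro h
      refine (Algebra.TensorProduct.basis (ResidueField O) b).ext_elem fun i => ?_
      rw [hco, map_zero, Finsupp.zero_apply]
      exact (residue_eq_zero_iff _).2 (coord_mem b _ h i)
  have hsurj : ∃ x : L, (1 : ResidueField O) ⊗ₜ[O] x = e := by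
    clear he
    induction e using TensorProduct.induction_on with
    | zero => exact ⟨0, TensorProduct.tmul_zero _ _⟩
    | tmul a y =>
      obtain ⟨r, rfl⟩ := residue_surjective a
      refine ⟨r • y, ?_⟩
      rw [TensorProduct.tmul_smul, TensorProduct.smul_tmul', Algebra.smul_def, mul_one]
      rfl
    | add x y hx hy =>
      obtain ⟨x', rfl⟩ := hx
      obtain ⟨y', rfl⟩ := hy
      exact ⟨x' + y', TensorProduct.tmul_add _ _ _⟩
  obtain ⟨x, rfl⟩ := hsurj
  have hx : x * x - x ∈ maximalIdeal O • (⊤ : Submodule O L) := by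
    rw [← hker, TensorProduct.tmul_sub, sub_eq_zero]
    rwa [Algebra.TensorProduct.tmul_mul_tmul, one_mul] at he
  obtain ⟨e', h1, h2⟩ := exists_lift b (maximalIdeal O) hx
  refine ⟨e', h1, ?_⟩
  rw [← hker, TensorProduct.tmul_sub, sub_eq_zero] at h2
  exact h2

end Pool.Agent.Helper12.BR
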